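import Mathlib

namespace Pool.Agent.Results.MP_ff748e_nt.OddMultiperfect

open Finset

/-- The sum of the positive divisors of `n`. -/
def sig (n : ℕ) : ℕ := ∑ d ∈ n.divisors, d

/-- The denominator `n / gcd(n, σ(n))` of `σ(n) / n` in lowest terms. -/
def den (n : ℕ) : ℕ := n / Nat.gcd n (sig n)

/-- `m` is practical: positive, and every `k` with `1 ≤ k ≤ σ(m)` is a sum of distinct positive
divisors of `m`. -/
def Practical (m : ℕ) : Prop :=
  0 < m ∧ ∀ k, 1 ≤ k → k ≤ sig m → ∃ S ⊆ m.divisors, ∑ d ∈ S, d = k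

theorem sig_mul {a b : ℕ} (h : Nat.Coprime a b) : sig (a * b) = sig a * sig b := by
  unfold sig
  exact h.sum_divisors_mul

theorem sig_pow {p : ℕ} (hp : p.Prime) (e : ℕ) : sig (p ^ e) = ∑ i ∈ range (e + 1), p ^ i := by
  unfold sig
  rw [Nat.sum_divisors_prime_pow hp]

theorem le_sig {d n : ℕ} (hn : 0 < n) (h : d ∣ n) : d ≤ sig n :=
  Finset.single_le_sum (f := fun d => d) (fun _ _ => Nat.zero_le _)
    (Nat.mem_divisors.2 ⟨h, hn.ne'⟩)

theorem Practical.cover {m : ℕ} (h : Practical m) (k : ℕ) (hk : k ≤ sig m) :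
    ∃ S ⊆ m.divisors, ∑ d ∈ S, d = k := by
  rcases Nat.eq_zero_or_pos k with rfl | hk0
  · exact ⟨∅, by simp, by simp⟩
  · exact h.2 k hk0 hk

theorem geom {p : ℕ} (hp : 1 ≤ p) (e : ℕ) :
    (p - 1) * ∑ i ∈ range (e + 1), p ^ i + 1 = p ^ (e + 1) := by
  obtain ⟨t, rfl⟩ := Nat.exists_eq_add_of_le hp
  simp only [Nat.add_sub_cancel_left]
  induction e with
  | zero => simp [add_comm]
  | succ e ih =>
    rw [Finset.sum_range_succ, mul_add, pow_succ (1 + t) (e + 1)]
    nlinarith [ih]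

theorem split {P A B k : ℕ} (hP : P ≤ B + 1) (hk : k ≤ B + P * A) :
    ∃ t s, t ≤ A ∧ s ≤ B ∧ k = P * t + s := by
  induction A generalizing k with
  | zero => exact ⟨0, k, le_rfl, by simpa using hk, by simp⟩
  | succ A ih =>
    by_cases h : k ≤ B + P * A
    · obtain ⟨t, s, h1, h2, h3⟩ := ih h
      exact ⟨t, s, by omega, h2, h3⟩
    · have h4 : P * (A + 1) = P * A + P := by ring
      refine ⟨A + 1, k - P * (A + 1), le_rfl, by omega, by omega⟩

theorem practical_mul_pow {m p : ℕ} (hm : Practical m) (hp : p.Prime) (hpm : ¬ p ∣ m)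
    (hle : p ≤ sig m + 1) (e : ℕ) : Practical (m * p ^ e) := by
  induction e with
  | zero => simpa using hm
  | succ e ih =>
    have hcop : ∀ j, Nat.Coprime m (p ^ j) := fun j =>
      Nat.Coprime.pow_right j ((Nat.Prime.coprime_iff_not_dvd hp).2 hpm).symm
    have hpos : 0 < m * p ^ (e + 1) := Nat.mul_pos hm.1 (pow_pos hp.pos _)
    refine ⟨hpos, fun k _ hk => ?_⟩
    have h1 : sig (m * p ^ (e + 1)) = sig (m * p ^ e) + p ^ (e + 1) * sig m := by
      rw [sig_mul (hcop _), sig_mul (hcop _), sig_pow hp, sig_pow hp, Finset.sum_range_succ]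
      ring
    have h2 : p ^ (e + 1) ≤ sig (m * p ^ e) + 1 := by
      rw [sig_mul (hcop _), sig_pow hp, ← geom hp.one_le e]
      have : p - 1 ≤ sig m := by omega
      exact Nat.add_le_add_right (Nat.mul_le_mul_right _ this) 1
    rw [h1] at hk
    obtain ⟨t, s, ht, hs, rfl⟩ := split h2 hk
    obtain ⟨T, hT, rfl⟩ := hm.cover t ht
    obtain ⟨S, hS, rfl⟩ := ih.cover s hs
    have hinj : Function.Injective fun d : ℕ => p ^ (e + 1) * d :=
      fun a b h => Nat.eq_of_mul_eq_mul_left (pow_pos hp.pos _) h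
    refine ⟨T.map ⟨_, hinj⟩ ∪ S, ?_, ?_⟩
    · intro d hd
      rw [Nat.mem_divisors]
      refine ⟨?_, hpos.ne'⟩
      rcases Finset.mem_union.1 hd with hd | hd
      · obtain ⟨c, hc, rfl⟩ := Finset.mem_map.1 hd
        have := Nat.dvd_of_mem_divisors (hT hc)
        simp only [Function.Embedding.coeFn_mk]
        rw [mul_comm]
        exact Nat.mul_dvd_mul_right this _
      · exact (Nat.dvd_of_mem_divisors (hS hd)).trans
          (Nat.mul_dvd_mul_left _ (pow_dvd_pow _ (Nat.le_succ e)))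
    · rw [Finset.sum_union, Finset.sum_map, Finset.mul_sum]
      · rfl
      · rw [Finset.disjoint_left]
        intro d hd hdS
        obtain ⟨c, _, rfl⟩ := Finset.mem_map.1 hd
        have h3 : p ^ (e + 1) ∣ m * p ^ e :=
          (Dvd.intro _ rfl).trans (Nat.dvd_of_mem_divisors (hS hdS))
        rw [pow_succ, mul_comm m] at h3
        exact hpm (Nat.dvd_of_mul_dvd_mul_left (pow_pos hp.pos _) h3)

theorem practical_one : Practical 1 := by
  refine ⟨one_pos, fun k h1 h2 => ⟨{1}, by simp, ?_⟩⟩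
  have : sig 1 = 1 := by simp [sig]
  simp only [Finset.sum_singleton]
  omega

theorem dichotomy (N : ℕ) : ∀ m, 0 < N → Practical m → Nat.Coprime m N →
    Practical (m * N) ∨ ∃ m' N', m * N = m' * N' ∧ Practical m' ∧ 1 < N' ∧
      ∀ r, r.Prime → r ∣ N' → sig m' + 1 < r := by
  induction N using Nat.strong_induction_on with
  | _ N ih =>
    intro m hN hm hcop
    by_cases h1 : N = 1
    · left; simpa [h1] using hm
    by_cases h : ∃ p, p.Prime ∧ p ∣ N ∧ p ≤ sig m + 1
    · obtain ⟨p, hp, hpN, hle⟩ := h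
      obtain ⟨e, N1, hN1, hNe⟩ := Nat.exists_eq_pow_mul_and_not_dvd hN.ne' p hp.ne_one
      have hpm : ¬ p ∣ m := fun hd =>
        hp.ne_one (Nat.eq_one_of_dvd_coprimes hcop hd hpN)
      have he : e ≠ 0 := by
        rintro rfl
        rw [pow_zero, one_mul] at hNe
        exact hN1 (hNe ▸ hpN)
      have hN1pos : 0 < N1 := Nat.pos_of_ne_zero (by rintro rfl; simp at hN1)
      have hlt : N1 < N := by
        rw [hNe]
        exact lt_mul_of_one_lt_left hN1pos (Nat.one_lt_pow he hp.one_lt)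
      have hc : Nat.Coprime (m * p ^ e) N1 := by
        refine Nat.Coprime.mul_left ?_ ?_
        · exact Nat.Coprime.coprime_dvd_right (Dvd.intro_left _ hNe.symm) hcop
        · exact Nat.Coprime.pow_left e ((Nat.Prime.coprime_iff_not_dvd hp).2 hN1)
      have := ih N1 hlt (m * p ^ e) hN1pos (practical_mul_pow hm hp hpm hle e) hc
      rw [hNe, ← mul_assoc]
      exact this
    · right
      refine ⟨m, N, rfl, hm, by omega, fun r hr hrN => ?_⟩
      by_contra hcon
      exact h ⟨r, hr, hrN, by omega⟩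

theorem structure_thm {n : ℕ} (hn : 0 < n) (ha : Practical (den n)) (hnp : ¬ Practical n) :
    ∃ m N, n = m * N ∧ Practical m ∧ 1 < N ∧ Odd N ∧ N ∣ sig N ∧
      ∀ r, r.Prime → r ∣ N → sig m + 1 < r := by
  rcases dichotomy n 1 hn practical_one (Nat.coprime_one_left n) with h | ⟨m, N, h1, hm, hN, hr⟩
  · exact absurd (by simpa using h) hnp
  rw [one_mul] at h1
  have hs1 : 1 ≤ sig m := le_sig hm.1 (one_dvd m)
  have small : ∀ d, 0 < d → d ≤ sig m + 1 → Nat.Coprime d N := by
    intro d hd hle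
    refine Nat.Coprime.symm (Nat.coprime_of_dvd fun r hrp hrN hrd => ?_)
    have := hr r hrp hrN
    have := Nat.le_of_dvd hd hrd
    omega
  have hmN : Nat.Coprime m N := small m hm.1 (by have := le_sig hm.1 (dvd_refl m); omega)
  have hdvd : den n ∣ n := Nat.div_dvd_of_dvd (Nat.gcd_dvd_left _ _)
  have haN : Nat.Coprime (den n) N := by
    refine Nat.coprime_of_dvd fun r hrp hra hrN => ?_
    have h2 := hr r hrp hrN
    have h3 := le_sig ha.1 hra
    obtain ⟨S, hS, hsum⟩ := ha.cover (sig m + 1) (by omega)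
    have hsub : S ⊆ m.divisors := by
      intro d hd
      have hd1 := hS hd
      have hdpos : 0 < d := Nat.pos_of_mem_divisors hd1
      have hdle : d ≤ sig m + 1 := by
        rw [← hsum]
        exact Finset.single_le_sum (f := fun d => d) (fun _ _ => Nat.zero_le _) hd
      have hdn : d ∣ m * N := h1 ▸ (Nat.dvd_of_mem_divisors hd1).trans hdvd
      exact Nat.mem_divisors.2 ⟨(small d hdpos hdle).dvd_of_dvd_mul_right hdn, hm.1.ne'⟩
    have h4 : ∑ d ∈ S, d ≤ sig m := Finset.sum_le_sum_of_subset hsub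
    omega
  have hmul : den n * Nat.gcd n (sig n) = n := Nat.div_mul_cancel (Nat.gcd_dvd_left _ _)
  have hNg : N ∣ Nat.gcd n (sig n) := by
    refine haN.symm.dvd_of_dvd_mul_left ?_
    rw [hmul, h1]
    exact Dvd.intro_left _ rfl
  have hNs : N ∣ sig m * sig N := by
    rw [← sig_mul hmN, ← h1]
    exact hNg.trans (Nat.gcd_dvd_right _ _)
  refine ⟨m, N, h1, hm, hN, ?_, (small (sig m) hs1 (by omega)).symm.dvd_of_dvd_mul_left hNs, hr⟩
  rw [← Nat.not_even_iff_odd]
  intro he
  have := hr 2 Nat.prime_two he.two_dvd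
  omega

theorem result :
    (∀ n : ℕ, 0 < n → Practical (den n) → ¬ Practical n →
      ∃ m N : ℕ, n = m * N ∧ Practical m ∧ 1 < N ∧ Odd N ∧ N ∣ sig N ∧
        ∀ r : ℕ, r.Prime → r ∣ N → sig m + 1 < r) ∧
    ((∀ n : ℕ, 0 < n → Practical (den n) → Practical n) ↔
      ∀ N : ℕ, 1 < N → Odd N → ¬ N ∣ sig N) := by
  refine ⟨fun n hn ha hnp => structure_thm hn ha hnp, ?_, ?_⟩
  · intro h N hN hodd hdvd
    have h1 : den N = 1 := by
      unfold den
      rw [Nat.gcd_eq_left hdvd, Nat.div_self (by omega)]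
    have hp := h N (by omega) (h1 ▸ practical_one)
    have h2 := le_sig (n := N) (by omega) (dvd_refl N)
    obtain ⟨S, hS, hsum⟩ := hp.cover 2 (by omega)
    have hsub : S ⊆ {1} := by
      intro d hd
      have hd1 := hS hd
      have hdpos : 0 < d := Nat.pos_of_mem_divisors hd1
      have hdle : d ≤ 2 := by
        rw [← hsum]
        exact Finset.single_le_sum (f := fun d => d) (fun _ _ => Nat.zero_le _) hd
      have hd2 : d ≠ 2 := by
        rintro rfl
        exact (Nat.not_even_iff_odd.2 hodd) (even_iff_two_dvd.2 (Nat.dvd_of_mem_divisors hd1))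
      rw [Finset.mem_singleton]
      omega
    have h4 : ∑ d ∈ S, d ≤ ∑ d ∈ ({1} : Finset ℕ), d := Finset.sum_le_sum_of_subset hsub
    simp only [Finset.sum_singleton] at h4
    omega
  · intro h n hn ha
    by_contra hnp
    obtain ⟨m, N, -, -, hN, hodd, hdvd, -⟩ := structure_thm hn ha hnp
    exact h N hN hodd hdvd

end Pool.Agent.Results.MP_ff748e_nt.OddMultiperfect
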